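import Pool.Agent.helper12.PFS.Spec

/-!
# Almost perfect starters (MP_16a903_co): row WL (word lemma)
-/

set_option autoImplicit false

namespace Pool.Agent.PFS

section

variable {E F : Type} [Field F] [DecidableEq E]

omit [DecidableEq E] in
lemma WL_mu_ne {l : E → F} (hl : ∀ e, l e ≠ 0) (s : Step E F) : mu l s ≠ 0 := by
  unfold mu
  split_ifs
  · exact hl _
  · exact inv_ne_zero (hl _)

omit [DecidableEq E] in
lemma WL_cw_ne {l : E → F} (hl : ∀ e, l e ≠ 0) {s : Step E F} (hs : s.w ≠ 0) : cw l s ≠ 0 := by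
  unfold cw
  split_ifs
  · exact hs
  · exact neg_ne_zero.2 (mul_ne_zero hs (inv_ne_zero (hl _)))

omit [DecidableEq E] in
lemma WL_prod_ne {l : E → F} (hl : ∀ e, l e ≠ 0) (L : List (Step E F)) :
    (L.map (mu l)).prod ≠ 0 := by
  induction L with
  | nil => simp
  | cons s L ih =>
    rw [List.map_cons, List.prod_cons]
    exact mul_ne_zero (WL_mu_ne hl s) ih

lemma WL_kap_append (l : E → F) (e : E) (A R : List (Step E F)) (h : ∀ s ∈ A, s.e ≠ e) :
    kap l (A ++ R) e = kap l R e := by
  induction A with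
  | nil => rfl
  | cons s A ih =>
    rw [List.cons_append, kap, if_neg (h s List.mem_cons_self), zero_add]
    exact ih fun t ht => h t (List.mem_cons_of_mem _ ht)

lemma WL_kap_zero (l : E → F) (e : E) (A : List (Step E F)) (h : ∀ s ∈ A, s.e ≠ e) :
    kap l A e = 0 := by
  have h1 := WL_kap_append l e A [] h
  rw [List.append_nil] at h1
  rw [h1]
  rfl

lemma WL_kap (l : E → F) (A B C : List (Step E F)) (s1 s2 : Step E F) (h12 : s1.e = s2.e)
    (hA : ∀ s ∈ A, s.e ≠ s1.e) (hB : ∀ s ∈ B, s.e ≠ s1.e) (hC : ∀ s ∈ C, s.e ≠ s1.e) :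
    kap l (A ++ s1 :: (B ++ s2 :: C)) s1.e =
      (cw l s1 * (B.map (mu l)).prod * mu l s2 + cw l s2) * (C.map (mu l)).prod := by
  rw [WL_kap_append l s1.e A _ hA, kap, if_pos rfl, WL_kap_append l s1.e B _ hB, kap,
    if_pos h12.symm, WL_kap_zero l s1.e C hC, List.map_append, List.prod_append, List.map_cons,
    List.prod_cons]
  ring

omit [DecidableEq E] in
lemma WL_mu_congr {l l' : E → F} {s : Step E F} (h : l s.e = l' s.e) : mu l s = mu l' s := by
  unfold mu
  rw [h]

omit [DecidableEq E] in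
lemma WL_cw_congr {l l' : E → F} {s : Step E F} (h : l s.e = l' s.e) : cw l s = cw l' s := by
  unfold cw
  rw [h]

omit [DecidableEq E] in
lemma WL_mu_inj {l l' : E → F} {s : Step E F} (h : mu l s = mu l' s) : l s.e = l' s.e := by
  unfold mu at h
  split_ifs at h
  · exact h
  · exact inv_injective h

/-- a factorization with two occurrences of the same letter, with a shortest part between them -/
lemma WL_fac {W : List (Step E F)} (hW : Wd W) :
    ∃ (A B C : List (Step E F)) (s1 s2 : Step E F), W = A ++ s1 :: (B ++ s2 :: C) ∧ s1.e = s2.e ∧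
      ∀ (A' B' C' : List (Step E F)) (t1 t2 : Step E F), W = A' ++ t1 :: (B' ++ t2 :: C') →
        t1.e = t2.e → B.length ≤ B'.length := by
  classical
  have hex : ∃ n : ℕ, ∃ (A B C : List (Step E F)) (s1 s2 : Step E F),
      W = A ++ s1 :: (B ++ s2 :: C) ∧ s1.e = s2.e ∧ B.length = n := by
    obtain ⟨s, W', rfl⟩ := List.exists_cons_of_ne_nil hW.ne
    have h1 := hW.two s List.mem_cons_self
    rw [List.map_cons, List.count_cons_self] at h1
    have h2 : 0 < (W'.map Step.e).count s.e := by omega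
    have h3 := List.count_pos_iff.1 h2
    obtain ⟨t, ht, hte⟩ := List.mem_map.1 h3
    obtain ⟨B, C, rfl⟩ := List.append_of_mem ht
    exact ⟨B.length, [], B, C, s, t, rfl, hte.symm, rfl⟩
  obtain ⟨A, B, C, s1, s2, h1, h2, h3⟩ := Nat.find_spec hex
  refine ⟨A, B, C, s1, s2, h1, h2, ?_⟩
  intro A' B' C' t1 t2 h4 h5
  rw [h3]
  exact Nat.find_min' hex ⟨A', B', C', t1, t2, h4, h5, rfl⟩

/-- there is a letter such that the bad `l` are determined by their values at the other letters -/
lemma WL_letter {W : List (Step E F)} (hW : Wd W) : ∃ e' : E, ∀ l l' : E → F, (∀ e, l e ≠ 0) →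
    (∀ e, l' e ≠ 0) → (∀ e, kap l W e = 0) → (∀ e, kap l' W e = 0) → (∀ x, x ≠ e' → l x = l' x) →
    l e' = l' e' := by
  obtain ⟨A, B, C, s1, s2, hf, h12, hmin⟩ := WL_fac hW
  -- the letter `s1.e` occurs nowhere else
  have hs1 : s1 ∈ W := by rw [hf]; simp
  have hcount := hW.two s1 hs1
  rw [hf, List.map_append, List.map_cons, List.map_append, List.map_cons, List.count_append,
    List.count_cons_self, List.count_append, ← h12, List.count_cons_self] at hcount
  have hnot : ∀ L : List (Step E F), (L.map Step.e).count s1.e = 0 → ∀ s ∈ L, s.e ≠ s1.e := by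
    intro L hL s hs hse
    have h1 : s1.e ∈ L.map Step.e := hse ▸ List.mem_map_of_mem hs
    have h2 := List.count_pos_iff.2 h1
    omega
  have hA := hnot A (by omega)
  have hB := hnot B (by omega)
  have hC := hnot C (by omega)
  have hw1 : s1.w ≠ 0 := hW.w0 s1 hs1
  have hw2 : s2.w ≠ 0 := hW.w0 s2 (by rw [hf]; simp)
  -- the equation
  have hstar : ∀ l : E → F, (∀ e, l e ≠ 0) → (∀ e, kap l W e = 0) →
      cw l s1 * (B.map (mu l)).prod * mu l s2 + cw l s2 = 0 := by
    intro l hl hk
    have h1 := hk s1.e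
    rw [hf, WL_kap l A B C s1 s2 h12 hA hB hC] at h1
    exact (mul_eq_zero.1 h1).resolve_right (WL_prod_ne hl C)
  rcases B with _ | ⟨b, B⟩
  · -- adjacent steps
    refine ⟨s1.e, fun l l' hl hl' hk hk' _ => ?_⟩
    have e1 := hstar l hl hk
    have e2 := hstar l' hl' hk'
    rw [List.map_nil, List.prod_nil, mul_one] at e1 e2
    have y0 := hl s1.e
    have y0' := hl' s1.e
    have hadj : s1.d ≠ s2.d → s1.w ≠ s2.w := fun h => hW.adj A C s1 s2 hf h12 h
    unfold cw mu at e1 e2
    rw [← h12] at e1 e2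
    rcases hd1 : s1.d <;> rcases hd2 : s2.d <;> rw [hd1, hd2] at e1 e2
    · simp only [Bool.false_eq_true, if_false] at e1 e2
      have e3 : s1.w + s2.w * l s1.e = 0 := by
        have : -(s1.w * (l s1.e)⁻¹) * (l s1.e)⁻¹ + -(s2.w * (l s1.e)⁻¹)
            = -((l s1.e)⁻¹ * (l s1.e)⁻¹) * (s1.w + s2.w * l s1.e) := by
          field_simp
          ring
        rw [this] at e1
        exact (mul_eq_zero.1 e1).resolve_left
          (neg_ne_zero.2 (mul_ne_zero (inv_ne_zero y0) (inv_ne_zero y0)))
      have e4 : s1.w + s2.w * l' s1.e = 0 := by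
        have : -(s1.w * (l' s1.e)⁻¹) * (l' s1.e)⁻¹ + -(s2.w * (l' s1.e)⁻¹)
            = -((l' s1.e)⁻¹ * (l' s1.e)⁻¹) * (s1.w + s2.w * l' s1.e) := by
          field_simp
          ring
        rw [this] at e2
        exact (mul_eq_zero.1 e2).resolve_left
          (neg_ne_zero.2 (mul_ne_zero (inv_ne_zero y0') (inv_ne_zero y0')))
      exact mul_left_cancel₀ hw2 (add_left_cancel (e3.trans e4.symm))
    · exfalso
      simp only [Bool.false_eq_true, if_false, if_true] at e1
      refine hadj (by rw [hd1, hd2]; simp) ?_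
      have : -(s1.w * (l s1.e)⁻¹) * l s1.e + s2.w = s2.w - s1.w := by
        field_simp
        ring
      rw [this] at e1
      exact (sub_eq_zero.1 e1).symm
    · exfalso
      simp only [Bool.false_eq_true, if_false, if_true] at e1
      refine hadj (by rw [hd1, hd2]; simp) ?_
      have : s1.w * (l s1.e)⁻¹ + -(s2.w * (l s1.e)⁻¹) = (s1.w - s2.w) * (l s1.e)⁻¹ := by
        ring
      rw [this] at e1
      exact sub_eq_zero.1 ((mul_eq_zero.1 e1).resolve_right (inv_ne_zero y0))
    · simp only [if_true] at e1 e2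
      exact mul_left_cancel₀ hw1 (add_right_cancel (e1.trans e2.symm))
  · -- a step in between
    refine ⟨b.e, fun l l' hl hl' hk hk' hll => ?_⟩
    have hb : b.e ≠ s1.e := hB b List.mem_cons_self
    have honce : ∀ t ∈ B, t.e ≠ b.e := by
      intro t ht hte
      obtain ⟨B1, B2, rfl⟩ := List.append_of_mem ht
      have h1 := hmin (A ++ [s1]) B1 (B2 ++ s2 :: C) b t (by rw [hf]; simp) hte.symm
      rw [List.length_cons, List.length_append, List.length_cons] at h1
      omega
    have e1 := hstar l hl hk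
    have e2 := hstar l' hl' hk'
    have c1 : cw l s1 = cw l' s1 := WL_cw_congr (hll _ hb.symm)
    have c2 : cw l s2 = cw l' s2 := WL_cw_congr (hll _ (h12 ▸ hb.symm))
    have c3 : mu l s2 = mu l' s2 := WL_mu_congr (hll _ (h12 ▸ hb.symm))
    have c4 : (B.map (mu l)).prod = (B.map (mu l')).prod := by
      congr 1
      exact List.map_congr_left fun t ht => WL_mu_congr (hll _ (honce t ht))
    rw [List.map_cons, List.prod_cons] at e1 e2
    rw [c1, c2, c3, c4] at e1
    have e3 := add_right_cancel (e1.trans e2.symm)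
    have e4 := mul_right_cancel₀ (WL_mu_ne hl' s2) e3
    have e5 := mul_left_cancel₀ (WL_cw_ne hl' hw1) e4
    have e6 := mul_right_cancel₀ (WL_prod_ne hl' B) e5
    exact WL_mu_inj e6

end

theorem WL : WL_stmt := by
  intro E F S _ _ _ _ ι W hι hι0 hW
  obtain ⟨e', he'⟩ := WL_letter hW
  rw [← Nat.card_prod, ← Nat.card_eq_fintype_card, ← Nat.card_fun]
  refine Nat.card_le_card_of_injective
    (fun q : {l : E → S // ∀ e, kap (fun x => ι (l x)) W e = 0} × S =>
      Function.update q.1.1 e' q.2) ?_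
  rintro ⟨⟨l, hl⟩, s⟩ ⟨⟨l', hl'⟩, s'⟩ h
  simp only at h
  have h1 : s = s' := by
    have := congrFun h e'
    simpa using this
  have h2 : ∀ x, x ≠ e' → l x = l' x := by
    intro x hx
    have := congrFun h x
    rwa [Function.update_of_ne hx, Function.update_of_ne hx] at this
  have h3 : l e' = l' e' := hι (he' (fun x => ι (l x)) (fun x => ι (l' x)) (fun e => hι0 _)
    (fun e => hι0 _) hl hl' fun x hx => by rw [h2 x hx])
  have h4 : l = l' := by
    funext x
    by_cases hx : x = e'
    · rw [hx, h3]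
    · exact h2 x hx
  subst h4
  subst h1
  rfl

end Pool.Agent.PFS
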